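import Pool.Agent.Y301.RY.Fin

set_option autoImplicit false

open Pool.Agent.Results.MP_737f38_pr.CriticalValueOne

namespace Pool.Agent.Results.MP_737f38_pr.CriticalValueEachSize

/-- Property (i) for the value `c`, restricted to Bernoulli sums of exactly `m` variables. -/
def PropIAt (m : ℕ) (c : ℝ) : Prop :=
  ∀ q : ℝ, 0 < q → q ≤ c → ∀ p0 p1 : Fin m → ℝ,
    (∀ i, p0 i ∈ Set.Icc (0:ℝ) 1) → (∀ i, p1 i ∈ Set.Icc (0:ℝ) 1) →
      ConcaveOn ℝ (Set.Icc (0:ℝ) 1) (phi q p0 p1)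

/-- Property (ii) for the value `c`, restricted to Bernoulli sums of exactly `m` variables. -/
def PropIIAt (m : ℕ) (c : ℝ) : Prop :=
  ∀ q : ℝ, c < q → ∃ p0 p1 : Fin m → ℝ,
    (∀ i, p0 i ∈ Set.Icc (0:ℝ) 1) ∧ (∀ i, p1 i ∈ Set.Icc (0:ℝ) 1) ∧
      ConvexOn ℝ (Set.Icc (0:ℝ) 1) (phi q p0 p1) ∧
        ¬ ∃ α β : ℝ, ∀ t ∈ Set.Icc (0:ℝ) 1, phi q p0 p1 t = α + β * t

/-- The critical value for Bernoulli sums of exactly `m` variables. -/
def crit (m : ℕ) : ℝ := if m = 1 then 2 else 1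

lemma crit_pos (m : ℕ) : 0 < crit m := by
  unfold crit; split_ifs <;> norm_num

lemma propIAt (m : ℕ) (hm : 1 ≤ m) : PropIAt m (crit m) := by
  intro q hq hq1 p0 p1 h0 h1
  rcases le_or_gt q 1 with h | h
  · exact propI_one q hq h m hm p0 p1 h0 h1
  · unfold crit at hq1
    split_ifs at hq1 with h3
    · subst h3
      exact Pool.Agent.Y301.RY.phi_one_concave h hq1 p0 p1 h0 h1
    · exact absurd hq1 (not_le.2 h)

lemma str (m : ℕ) (hm : 1 ≤ m) (q : ℝ) (hq : crit m < q) : Pool.Agent.Y301.RY.Str m q := by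
  unfold crit at hq
  split_ifs at hq with h3
  · exact Pool.Agent.Y301.RY.str_diag hq hm
  · exact Pool.Agent.Y301.RY.str_ge_two hq (by omega)

lemma propIIAt (m : ℕ) (hm : 1 ≤ m) : PropIIAt m (crit m) := by
  intro q hq
  obtain ⟨p0, p1, h0, h1, hs⟩ := str m hm q hq
  exact ⟨p0, p1, h0, h1, hs.convexOn, Pool.Agent.Y301.RY.not_affine hs⟩

/-- **The critical Rényi order for every number of variables.**
(1) For Bernoulli sums of exactly `m` variables there is exactly one critical value, namely `2`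
(the conjectured value) for `m = 1`, and `1` for every `m ≥ 2`.
(2) For every `m ≥ 1` and `q > 0` the order-`q` entropy is concave along all affine paths of
Bernoulli sums of `m` variables if and only if `q` is at most this value, and for every larger `q`
it is strictly convex along some path.
(3) For the binomial laws (the paths of constant vectors) and every `m ≥ 1`: the orders `q ≤ 1`
and the conjectured order `q = 2` have concave entropies, and for every `q > 2` the entropy of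
`B_{m,x}` is strictly convex for `x` in some interval `[0, δ]`.
(4) The answer to Q1: for `c > 0`, the properties (i) and (ii) both hold for `c` if and only if
`c = 1`; in particular such a value exists and it is not `2`. -/
theorem result :
    (∀ m : ℕ, 1 ≤ m → ∀ c : ℝ, 0 < c →
      ((PropIAt m c ∧ PropIIAt m c) ↔ c = if m = 1 then 2 else 1)) ∧
    (∀ m : ℕ, 1 ≤ m → ∀ q : ℝ, 0 < q →
      ((∀ p0 p1 : Fin m → ℝ, (∀ i, p0 i ∈ Set.Icc (0:ℝ) 1) → (∀ i, p1 i ∈ Set.Icc (0:ℝ) 1) →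
        ConcaveOn ℝ (Set.Icc (0:ℝ) 1) (phi q p0 p1)) ↔ q ≤ if m = 1 then 2 else 1)) ∧
    (∀ m : ℕ, 1 ≤ m → ∀ q : ℝ, (if m = 1 then 2 else 1) < q → ∃ p0 p1 : Fin m → ℝ,
      (∀ i, p0 i ∈ Set.Icc (0:ℝ) 1) ∧ (∀ i, p1 i ∈ Set.Icc (0:ℝ) 1) ∧
        StrictConvexOn ℝ (Set.Icc (0:ℝ) 1) (phi q p0 p1)) ∧
    (∀ m : ℕ, 1 ≤ m →
      (∀ q : ℝ, 0 < q → (q ≤ 1 ∨ q = 2) → ∀ a b : ℝ, a ∈ Set.Icc (0:ℝ) 1 → b ∈ Set.Icc (0:ℝ) 1 →
        ConcaveOn ℝ (Set.Icc (0:ℝ) 1) (phi q (fun _ : Fin m => a) (fun _ : Fin m => b))) ∧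
      (∀ q : ℝ, 2 < q → ∃ δ : ℝ, 0 < δ ∧ δ ≤ 1 ∧ StrictConvexOn ℝ (Set.Icc (0:ℝ) 1)
        (phi q (fun _ : Fin m => (0:ℝ)) (fun _ : Fin m => δ)))) ∧
    (∀ c : ℝ, 0 < c → ((PropI c ∧ PropII c) ↔ c = 1)) ∧
    (∃ c : ℝ, 0 < c ∧ PropI c ∧ PropII c) ∧ ¬ (PropI 2 ∧ PropII 2) := by
  have hI := Pool.Agent.Results.MP_737f38_pr.CriticalValueOne.result
  refine ⟨fun m hm c hc => ?_, fun m hm q hq => ?_, fun m hm q hq => str m hm q hq,
    fun m hm => ⟨fun q hq hq1 a b ha hb => ?_, fun q hq => ?_⟩, hI.1, hI.2.1, hI.2.2⟩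
  · constructor
    · rintro ⟨h1, h2⟩
      rcases lt_trichotomy c (crit m) with h | h | h
      · exfalso
        obtain ⟨p0, p1, i0, i1, hconv, haff⟩ := h2 (crit m) h
        have hconc := propIAt m hm (crit m) (crit_pos m) le_rfl p0 p1 i0 i1
        apply haff
        refine ⟨phi (crit m) p0 p1 0, phi (crit m) p0 p1 1 - phi (crit m) p0 p1 0, fun t ht => ?_⟩
        have j0 : (0:ℝ) ∈ Set.Icc (0:ℝ) 1 := by simp
        have j1 : (1:ℝ) ∈ Set.Icc (0:ℝ) 1 := by simp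
        have e1 := hconv.2 j0 j1 (show (0:ℝ) ≤ 1 - t by linarith [ht.2]) ht.1 (by ring)
        have e2 := hconc.2 j0 j1 (show (0:ℝ) ≤ 1 - t by linarith [ht.2]) ht.1 (by ring)
        simp only [smul_eq_mul, mul_zero, mul_one, zero_add] at e1 e2
        linarith
      · exact h
      · exfalso
        obtain ⟨p0, p1, i0, i1, hs⟩ := str m hm c h
        exact Pool.Agent.Y301.RY.not_concave hs (h1 c hc le_rfl p0 p1 i0 i1)
    · intro h
      have h' : c = crit m := h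
      rw [h']
      exact ⟨propIAt m hm, propIIAt m hm⟩
  · constructor
    · intro h
      by_contra hlt
      obtain ⟨p0, p1, i0, i1, hs⟩ := str m hm q (not_le.1 hlt)
      exact Pool.Agent.Y301.RY.not_concave hs (h p0 p1 i0 i1)
    · intro h p0 p1 i0 i1
      exact propIAt m hm q hq h p0 p1 i0 i1
  · rcases hq1 with h | h
    · exact propI_one q hq h m hm _ _ (fun _ => ha) (fun _ => hb)
    · rw [h]
      exact Pool.Agent.Y301.RY.diag_two hm ha hb
  · exact Pool.Agent.Y301.RY.diag_strict hq hm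

end Pool.Agent.Results.MP_737f38_pr.CriticalValueEachSize
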